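import Pool.Agent.H2.ShafMain

set_option autoImplicit false

namespace Pool.Agent.Results.MP_a47518_nt.DegreeFour

open IsDedekindDomain Pool.Agent.H2.Shaf

/-- The case `N = 1`, `d = 4`: for every number field `K` there is a finite set `S` of primes of `K` such
that the classes `[f]` of degree-`4` morphisms `f : ℙ¹ → ℙ¹` defined over `K` with good reduction at every
prime outside `S` are Zariski dense in the moduli space `M_4^1`. Since `dim M_4^1 = 2·4 - 2 = 6`, this says
`ShafDim(M_4^1) = 6 = 2d - 2`. -/
theorem result (K : Type) [Field K] [NumberField K] :
    ∃ S : Finset (HeightOneSpectrum (NumberField.RingOfIntegers K)),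
      Dense (goodClasses 1 4 K (S : Set (HeightOneSpectrum (NumberField.RingOfIntegers K)))) :=
  dense_quartic K

end Pool.Agent.Results.MP_a47518_nt.DegreeFour
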